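import Pool.Agent.helper84.HF.SpecH

/-!
Row hf:SMH (entropy and second moment).
-/

set_option autoImplicit false

open Finset

namespace Pool.Agent.HF

private lemma SMH_range (K : ℕ) :
    ∑ n ∈ Finset.range (K + 2), 1 / (1 + (n : ℝ) ^ 2) ≤ 5 / 2 - 1 / ((K : ℝ) + 1) := by
  induction K with
  | zero => norm_num [Finset.sum_range_succ]
  | succ K ih =>
    rw [Finset.sum_range_succ]
    have h1 : (0 : ℝ) < (K : ℝ) + 1 := by positivity
    have h2 : 1 / (1 + ((K + 2 : ℕ) : ℝ) ^ 2) ≤ 1 / ((K : ℝ) + 1) - 1 / ((K : ℝ) + 1 + 1) := by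
      have e : 1 / ((K : ℝ) + 1) - 1 / ((K : ℝ) + 1 + 1) = 1 / (((K : ℝ) + 1) * ((K : ℝ) + 2)) := by
        field_simp
        ring
      rw [e]
      apply one_div_le_one_div_of_le (by positivity)
      push_cast
      nlinarith
    push_cast at ih h2 ⊢
    linarith

private lemma SMH_fin (T : Finset ℕ) : ∑ n ∈ T, 1 / (1 + (n : ℝ) ^ 2) ≤ 5 / 2 := by
  have h1 : T ⊆ Finset.range (T.sup id + 2) := by
    intro x hx
    have : id x ≤ T.sup id := Finset.le_sup hx
    simp only [Finset.mem_range, id] at *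
    omega
  have h2 := Finset.sum_le_sum_of_subset_of_nonneg (f := fun n : ℕ => 1 / (1 + (n : ℝ) ^ 2)) h1
    (fun i _ _ => by positivity)
  have h3 := SMH_range (T.sup id)
  have h4 : (0 : ℝ) ≤ 1 / (((T.sup id : ℕ) : ℝ) + 1) := by positivity
  linarith

private lemma SMH_inj (T : Finset ℕ) (g : ℕ → ℕ) (hg : Set.InjOn g T) (z₀ : ℝ)
    (h : ∀ i ∈ T, (g i : ℝ) ≤ |(i : ℝ) - z₀|) :
    ∑ i ∈ T, 1 / (1 + ((i : ℝ) - z₀) ^ 2) ≤ 5 / 2 := by
  have h1 : ∑ i ∈ T, 1 / (1 + ((i : ℝ) - z₀) ^ 2) ≤ ∑ i ∈ T, 1 / (1 + (g i : ℝ) ^ 2) := by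
    apply Finset.sum_le_sum
    intro i hi
    apply one_div_le_one_div_of_le (by positivity)
    have h2 : (g i : ℝ) ^ 2 ≤ |(i : ℝ) - z₀| ^ 2 :=
      pow_le_pow_left₀ (Nat.cast_nonneg _) (h i hi) 2
    rw [sq_abs] at h2
    linarith
  have h3 : ∑ i ∈ T, 1 / (1 + (g i : ℝ) ^ 2) = ∑ n ∈ T.image g, 1 / (1 + (n : ℝ) ^ 2) := by
    rw [Finset.sum_image hg]
  rw [h3] at h1
  exact h1.trans (SMH_fin _)

private lemma SMH_all (T : Finset ℕ) (z₀ : ℝ) :
    ∑ i ∈ T, 1 / (1 + ((i : ℝ) - z₀) ^ 2) ≤ 5 := by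
  classical
  rw [← Finset.sum_filter_add_sum_filter_not T (fun i : ℕ => (i : ℝ) ≤ z₀)]
  have h1 : ∑ i ∈ T.filter (fun i : ℕ => (i : ℝ) ≤ z₀), 1 / (1 + ((i : ℝ) - z₀) ^ 2) ≤ 5 / 2 := by
    apply SMH_inj _ (fun i => ⌊z₀⌋₊ - i)
    · intro x hx y hy hxy
      simp only [Finset.coe_filter, Set.mem_ofPred_eq] at hx hy hxy
      have a1 := Nat.le_floor hx.2
      have a2 := Nat.le_floor hy.2
      omega
    · intro i hi
      simp only [Finset.mem_filter] at hi
      have a1 := Nat.le_floor hi.2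
      have a2 : (0 : ℝ) ≤ z₀ := (Nat.cast_nonneg _).trans hi.2
      have a3 := Nat.floor_le a2
      rw [Nat.cast_sub a1, abs_sub_comm, abs_of_nonneg (by linarith [hi.2])]
      linarith
  have h2 : ∑ i ∈ T.filter (fun i : ℕ => ¬ (i : ℝ) ≤ z₀), 1 / (1 + ((i : ℝ) - z₀) ^ 2) ≤ 5 / 2 := by
    apply SMH_inj _ (fun i => i - ⌈z₀⌉₊)
    · intro x hx y hy hxy
      simp only [Finset.coe_filter, Set.mem_ofPred_eq, not_le] at hx hy hxy
      have a1 := Nat.ceil_le.mpr hx.2.le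
      have a2 := Nat.ceil_le.mpr hy.2.le
      omega
    · intro i hi
      simp only [Finset.mem_filter, not_le] at hi
      have a1 := Nat.ceil_le.mpr hi.2.le
      have a3 := Nat.le_ceil z₀
      rw [Nat.cast_sub a1, abs_of_nonneg (by linarith [hi.2])]
      linarith
  linarith

private lemma SMH_term (p u V w : ℝ) (hp : 0 < p) (hV : 0 ≤ V) (hw : 0 < w) (hu : u = 1 / (5 * w)) :
    Real.negMulLog p ≤ (u - p) + p * (Real.log 5 + Real.log (1 + V) + (w / (1 + V) - 1)) := by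
  have hV1 : 0 < 1 + V := by linarith
  have hu0 : 0 < u := by rw [hu]; positivity
  have h1 : Real.log (u / p) ≤ u / p - 1 := Real.log_le_sub_one_of_pos (by positivity)
  have h2 : Real.log (w / (1 + V)) ≤ w / (1 + V) - 1 := Real.log_le_sub_one_of_pos (by positivity)
  have h3 : Real.log (u / p) = Real.log u - Real.log p := Real.log_div hu0.ne' hp.ne'
  have h4 : Real.log (w / (1 + V)) = Real.log w - Real.log (1 + V) := Real.log_div hw.ne' hV1.ne'
  have h5 : Real.log u = - (Real.log 5 + Real.log w) := by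
    rw [hu, one_div, Real.log_inv, Real.log_mul (by norm_num) hw.ne']
  unfold Real.negMulLog
  have h6 : p * (u / p - 1) = u - p := by field_simp
  have h7 : p * Real.log (u / p) ≤ u - p := by
    rw [← h6]; exact mul_le_mul_of_nonneg_left h1 hp.le
  have h8 : p * Real.log w ≤ p * (Real.log (1 + V) + (w / (1 + V) - 1)) := by
    apply mul_le_mul_of_nonneg_left _ hp.le
    linarith
  rw [h3, h5] at h7
  nlinarith

theorem SMH_proof : SMH_stmt := by
  classical
  intro α X f z₀ V hX hV hsum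
  have hc : (0 : ℝ) < (X.card : ℝ) := by exact_mod_cast Finset.card_pos.mpr hX
  unfold H
  -- probabilities
  set p : ℕ → ℝ := fun i => ((X.filter (fun x => f x = i)).card : ℝ) / X.card with hp
  have hmaps : ∀ x ∈ X, f x ∈ X.image f := fun x hx => Finset.mem_image_of_mem f hx
  have hsp : ∑ i ∈ X.image f, p i = 1 := by
    have h1 := Finset.card_eq_sum_card_fiberwise (f := f) (s := X) (t := X.image f)
      (fun x hx => by simpa using Finset.mem_image_of_mem f hx)
    simp only [hp]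
    rw [← Finset.sum_div]
    rw [div_eq_one_iff_eq hc.ne']
    exact_mod_cast h1.symm
  have hmom : ∑ i ∈ X.image f, p i * ((i : ℝ) - z₀) ^ 2 ≤ V := by
    have h1 : ∑ x ∈ X, ((f x : ℝ) - z₀) ^ 2 =
        ∑ i ∈ X.image f, ((X.filter (fun x => f x = i)).card : ℝ) * ((i : ℝ) - z₀) ^ 2 := by
      rw [← Finset.sum_fiberwise_of_maps_to hmaps (fun x => ((f x : ℝ) - z₀) ^ 2)]
      apply Finset.sum_congr rfl
      intro i _
      rw [Finset.sum_congr rfl (g := fun _ => ((i : ℝ) - z₀) ^ 2)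
        (fun x hx => by rw [(Finset.mem_filter.mp hx).2])]
      rw [Finset.sum_const, nsmul_eq_mul]
    have h2 : ∑ i ∈ X.image f, p i * ((i : ℝ) - z₀) ^ 2 =
        (∑ x ∈ X, ((f x : ℝ) - z₀) ^ 2) / X.card := by
      rw [h1, Finset.sum_div]
      apply Finset.sum_congr rfl
      intro i _
      simp only [hp]
      ring
    rw [h2, div_le_iff₀ hc]
    exact hsum
  have hpos : ∀ i ∈ X.image f, 0 < p i := by
    intro i hi
    obtain ⟨x, hx, rfl⟩ := Finset.mem_image.mp hi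
    simp only [hp]
    apply div_pos _ hc
    have : (X.filter (fun y => f y = f x)).Nonempty := ⟨x, by simp [hx]⟩
    exact_mod_cast Finset.card_pos.mpr this
  have hV1 : 0 < 1 + V := by linarith
  have hterm : ∑ i ∈ X.image f, Real.negMulLog (p i) ≤
      ∑ i ∈ X.image f, ((1 / (5 * (1 + ((i : ℝ) - z₀) ^ 2)) - p i) +
        p i * (Real.log 5 + Real.log (1 + V) + ((1 + ((i : ℝ) - z₀) ^ 2) / (1 + V) - 1))) := by
    apply Finset.sum_le_sum
    intro i hi
    exact SMH_term (p i) _ V (1 + ((i : ℝ) - z₀) ^ 2) (hpos i hi) hV (by positivity) rfl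
  have hsplit : ∑ i ∈ X.image f, ((1 / (5 * (1 + ((i : ℝ) - z₀) ^ 2)) - p i) +
        p i * (Real.log 5 + Real.log (1 + V) + ((1 + ((i : ℝ) - z₀) ^ 2) / (1 + V) - 1))) =
      (1 / 5) * (∑ i ∈ X.image f, 1 / (1 + ((i : ℝ) - z₀) ^ 2)) - (∑ i ∈ X.image f, p i) +
        (Real.log 5 + Real.log (1 + V) + (1 / (1 + V) - 1)) * (∑ i ∈ X.image f, p i) +
        (1 / (1 + V)) * ∑ i ∈ X.image f, p i * ((i : ℝ) - z₀) ^ 2 := by
    rw [Finset.mul_sum, Finset.mul_sum, Finset.mul_sum, ← Finset.sum_sub_distrib,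
      ← Finset.sum_add_distrib, ← Finset.sum_add_distrib]
    apply Finset.sum_congr rfl
    intro i _
    have : (1 + ((i : ℝ) - z₀) ^ 2) ≠ 0 := by positivity
    field_simp
    ring
  have hw := SMH_all (X.image f) z₀
  have hlast : (1 / (1 + V)) * ∑ i ∈ X.image f, p i * ((i : ℝ) - z₀) ^ 2 ≤ (1 / (1 + V)) * V :=
    mul_le_mul_of_nonneg_left hmom (by positivity)
  have hfin : (1 / (1 + V) - 1) + (1 / (1 + V)) * V = 0 := by
    field_simp
    ring
  rw [hsplit, hsp] at hterm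
  have hfin2 : ∑ i ∈ X.image f, Real.negMulLog (p i) ≤ Real.log 5 + Real.log (1 + V) := by nlinarith
  refine le_trans (le_of_eq ?_) hfin2
  refine Finset.sum_congr ?_ ?_
  · ext i
    simp only [Finset.mem_image]
  · intro i _
    simp only [hp]
    congr 3
    congr 1
    ext x
    simp only [Finset.mem_filter]
end Pool.Agent.HF
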